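import Pool.Agent.BLP.StmtsK

/-!
# Row K_BXT of squad BLP: the canonical environment of the transformed points
-/

set_option autoImplicit false

namespace Pool.Agent.BLP.H81

open Pool.Agent.BLP

theorem k_bxt : BxtStmt := by
  intro hbxe x hx
  obtain ⟨h1, h2, h3⟩ := hbxe
  have hc : Cts (BX x) := (h1 x).1
  have h0 : ∀ r, BX x r 0 = 0 := (h1 x).2
  have hq := h3 x hx
  refine ⟨fun a => ?_, fun k => ?_, fun l hl => ?_⟩
  · refine h2 _ _ ?_ ?_ ?_
    · intro r
      show Continuous fun t => BX x r (t + a) - BX x r a
      exact ((hc r).comp (continuous_id.add continuous_const)).sub continuous_const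
    · intro r
      show BX x r (0 + a) - BX x r a = 0
      rw [zero_add, sub_self]
    · intro r q
      show BX x r ((q : ℝ) + a) - BX x r a = x (r, q + a) - x (r, a)
      rw [← hq r (q + a), ← hq r a]
      push_cast
      rfl
  · refine h2 _ _ ?_ ?_ ?_
    · intro r
      exact hc (r + k)
    · intro r
      exact h0 (r + k)
    · intro r q
      exact hq (r + k) q
  · refine h2 _ _ ?_ ?_ ?_
    · intro r
      show Continuous fun t => BX x r (l * t) / Real.sqrt l
      exact ((hc r).comp (continuous_const.mul continuous_id)).div_const _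
    · intro r
      show BX x r (l * 0) / Real.sqrt l = 0
      rw [mul_zero, h0, zero_div]
    · intro r q
      show BX x r ((l : ℝ) * q) / Real.sqrt l = x (r, l * q) / Real.sqrt l
      rw [← hq r (l * q)]
      push_cast
      rfl

end Pool.Agent.BLP.H81
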