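import Pool.Agent.BLP.StmtsV

/-!
# Row V_MSV of squad BLP: the event of a valley is measurable
-/

set_option autoImplicit false

namespace Pool.Agent.BLP.V.H81

open MeasureTheory ProbabilityTheory Filter Topology Pool.Agent.BLP Pool.Agent.BLP.V
open scoped ENNReal

noncomputable section

/-- the parameters of the valleys -/
def KK (α α' : ℝ) (p n : ℕ) : Set (ℝ × ℝ × ℝ × ℝ × ℝ) :=
  {v | 0 ≤ v.1 ∧ v.1 ≤ p ∧ 0 ≤ v.2.1 ∧ v.2.1 ≤ p ∧ α * n ≤ v.2.2.1 ∧ v.2.2.1 ≤ v.2.2.2.1 ∧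
    v.2.2.2.1 ≤ v.2.2.2.2 ∧ v.2.2.2.2 ≤ α' * n}

/-- the strict inequalities -/
def UU (d : ℝ) (q n : ℕ) (b : Env) (v : ℝ × ℝ × ℝ × ℝ × ℝ) : Prop :=
  Dx b 0 v.1 q v.2.1 n v.2.2.2.1 + d < Dx b 0 v.1 q v.2.1 n v.2.2.1 ∧
    Dx b 0 v.1 q v.2.1 n v.2.2.2.1 + d < Dx b 0 v.1 q v.2.1 n v.2.2.2.2

theorem val_iff (α α' d : ℝ) (p q n : ℕ) (b : Env) :
    Val α α' p d q n b ↔ ∃ v : KK α α' p n, UU d q n b v := by
  constructor
  · rintro ⟨t₀, t₁, x₁, x₂, x₃, h1, h2, h3, h4, h5, h6, h7, h8, h9, h10⟩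
    exact ⟨⟨(t₀, t₁, x₁, x₂, x₃), h1, h2, h3, h4, h5, h6, h7, h8⟩, h9, h10⟩
  · rintro ⟨⟨⟨t₀, t₁, x₁, x₂, x₃⟩, h1, h2, h3, h4, h5, h6, h7, h8⟩, h9, h10⟩
    exact ⟨t₀, t₁, x₁, x₂, x₃, h1, h2, h3, h4, h5, h6, h7, h8, h9, h10⟩

theorem v_msv (hMea : MeaStmt) (hCtl : CtlStmt) : MsvStmt := by
  intro X _ μ B hSp α α' d p q n hα hαα' hd hp hq hqn hpn
  obtain ⟨s, hs, hsd⟩ := TopologicalSpace.exists_countable_dense (KK α α' p n)
  have hqn' : (q : ℤ) ≤ n := by exact_mod_cast hqn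
  have hn0 : (0 : ℤ) ≤ n := Int.natCast_nonneg n
  -- the times are ordered
  have hle : ∀ v : KK α α' p n, v.1.1 ≤ v.1.2.2.1 ∧ v.1.1 ≤ v.1.2.2.2.1 ∧
      v.1.1 ≤ v.1.2.2.2.2 ∧ v.1.2.1 ≤ v.1.2.2.1 ∧ v.1.2.1 ≤ v.1.2.2.2.1 ∧
      v.1.2.1 ≤ v.1.2.2.2.2 := by
    rintro ⟨⟨t₀, t₁, x₁, x₂, x₃⟩, h1, h2, h3, h4, h5, h6, h7, h8⟩
    dsimp only at *
    refine ⟨?_, ?_, ?_, ?_, ?_, ?_⟩ <;> linarith
  -- continuity
  have hcont : ∀ (b : Env), Cts b → ∀ (m : ℤ), m ≤ n → ∀ f g : KK α α' p n → ℝ,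
      Continuous f → Continuous g → (∀ v, f v ≤ g v) → Continuous fun v => L b m (f v) n (g v) := by
    intro b hb m hm f g hf hg hfg
    exact (hCtl b hb m n hm).comp_continuous (hf.prodMk hg) (fun v => hfg v)
  have c1 : Continuous fun v : KK α α' p n => v.1.1 := continuous_subtype_val.fst
  have c2 : Continuous fun v : KK α α' p n => v.1.2.1 := continuous_subtype_val.snd.fst
  have c3 : Continuous fun v : KK α α' p n => v.1.2.2.1 := continuous_subtype_val.snd.snd.fst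
  have c4 : Continuous fun v : KK α α' p n => v.1.2.2.2.1 :=
    continuous_subtype_val.snd.snd.snd.fst
  have c5 : Continuous fun v : KK α α' p n => v.1.2.2.2.2 :=
    continuous_subtype_val.snd.snd.snd.snd
  have hopen : ∀ b : Env, Cts b → IsOpen {v : KK α α' p n | UU d q n b v} := by
    intro b hb
    have hD : ∀ g : KK α α' p n → ℝ, Continuous g → (∀ v, v.1.1 ≤ g v) → (∀ v, v.1.2.1 ≤ g v) →
        Continuous fun v => Dx b 0 v.1.1 q v.1.2.1 n (g v) := by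
      intro g hg h1 h2
      unfold Dx
      exact (hcont b hb 0 hn0 _ g c1 hg h1).sub (hcont b hb q hqn' _ g c2 hg h2)
    have d1 := hD _ c3 (fun v => (hle v).1) (fun v => (hle v).2.2.2.1)
    have d2 := hD _ c4 (fun v => (hle v).2.1) (fun v => (hle v).2.2.2.2.1)
    have d3 := hD _ c5 (fun v => (hle v).2.2.1) (fun v => (hle v).2.2.2.2.2)
    exact (isOpen_lt (d2.add continuous_const) d1).inter (isOpen_lt (d2.add continuous_const) d3)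
  have heq : {x | Val α α' p d q n (B x)} = ⋃ v ∈ s, {x | UU d q n (B x) v} := by
    ext x
    rw [Set.mem_ofPred_eq, val_iff]
    constructor
    · rintro ⟨v, hv⟩
      obtain ⟨w, hw1, hw2⟩ := hsd.exists_mem_open (hopen (B x) (hSp.cts x)) ⟨v, hv⟩
      exact Set.mem_iUnion₂.2 ⟨w, hw1, hw2⟩
    · intro h
      obtain ⟨w, -, hw2⟩ := Set.mem_iUnion₂.1 h
      exact ⟨w, hw2⟩
  rw [heq]
  refine MeasurableSet.biUnion hs fun v _ => ?_
  have hM : ∀ g : ℝ, v.1.1 ≤ g → v.1.2.1 ≤ g →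
      Measurable fun x => Dx (B x) 0 v.1.1 q v.1.2.1 n g := by
    intro g h1 h2
    unfold Dx
    exact (hMea X μ B hSp 0 n _ _ hn0 h1).sub (hMea X μ B hSp q n _ _ hqn' h2)
  have m1 := hM _ (hle v).1 (hle v).2.2.2.1
  have m2 := hM _ (hle v).2.1 (hle v).2.2.2.2.1
  have m3 := hM _ (hle v).2.2.1 (hle v).2.2.2.2.2
  exact (measurableSet_lt (m2.add_const d) m1).inter (measurableSet_lt (m2.add_const d) m3)

end

end Pool.Agent.BLP.V.H81
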